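import Pool.Agent.Lib.MP_e338b6_co.HajosChain

/-!
# Sparse `10`-critical graphs without `K₉`

For every `m` there is a `10`-critical `K₉`-free graph with `n = 9m + 27` vertices and
`44m + 161` edges. For `m ≥ 37` this is at most `5n - 11`, so the asserted bound
`|E(G)| > 5n - 11` for all `10`-critical `K₉`-free graphs fails (first at `m = 37`, `n = 360`).

The graphs are obtained by chaining copies of `K₁₀` by the Hajós construction, through two disjoint
edges of each copy, and closing both ends of the chain with the `10`-critical graph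
`C₅ ∨ C₅ ∨ K₄`. The proof is in `Pool.Agent.Lib.MP_e338b6_co.HajosChain`.
-/

set_option autoImplicit false

namespace Pool.Agent.Results.MP_e338b6_co.SchonheimDisproof

/-- `G` is `k`-critical: `χ(G) = k`, and `χ(H) < k` for every proper subgraph `H` of `G`. -/
def IsCritical {V : Type} (k : ℕ) (G : SimpleGraph V) : Prop :=
  G.chromaticNumber = k ∧ ∀ H : G.Subgraph, H ≠ ⊤ → H.coe.chromaticNumber < k

/-- For every `m` there is a `10`-critical `K₉`-free graph with `9m + 27` vertices and `44m + 161`
edges. For `m ≥ 37` this number of edges is at most `5n - 11`, where `n = 9m + 27`. -/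
theorem result (m : ℕ) : ∃ G : SimpleGraph (Fin (9 * m + 27)),
    IsCritical 10 G ∧ G.CliqueFree 9 ∧ G.edgeSet.ncard = 44 * m + 161 ∧
      (37 ≤ m → (G.edgeSet.ncard : ℤ) ≤ 5 * ((9 * m + 27 : ℕ) : ℤ) - 11) :=
  Pool.Agent.Lib.MP_e338b6_co.main m

end Pool.Agent.Results.MP_e338b6_co.SchonheimDisproof
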